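import Pool.Agent.Helper8.UL.Base2

/-! UL2, part IND2: the induction over the structure of a 2-tree, and the root. -/

open Set

namespace Pool.Agent.Helper11.UL2.IND2

open Pool.UL

theorem ind3_comm (a b w v : ℕ) : ind3 a b w v = ind3 b a w v := by
  unfold ind3
  have : (v = a ∨ v = b ∨ v = w) ↔ (v = b ∨ v = a ∨ v = w) := by tauto
  simp only [this]

/-- the empty part -/
theorem inv_empty (E : ℕ → ℕ → Prop) (Δ p q : ℕ) (H : Set ℕ) (T : ℕ → ℕ) (hH : ∀ v, v ∉ H) :
    Inv E Δ p q H T := by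
  have hI : ∀ v, Inn E H v [] := fun v => ⟨List.nodup_nil, fun e => by
    constructor
    · intro h; exact absurd h List.not_mem_nil
    · rintro ⟨h, -⟩; exact absurd h (hH _)⟩
  have hO : ∀ v, Out E v H [] := fun v => ⟨List.nodup_nil, fun e => by
    constructor
    · intro h; exact absurd h List.not_mem_nil
    · rintro ⟨-, h, -⟩; exact absurd h (hH _)⟩
  have hF : Fine E H [] := ⟨by simp, by simp, fun v => by simp [hH v]⟩
  have hA : Att E H p q := ⟨hH p, hH q, fun v hv => absurd hv (hH v)⟩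
  refine ⟨H, H, 0, 0, fun _ => 0, fun _ => 0, fun v => by simp, fun v hv => absurd hv (hH v), hA,
    hA, ?_, ?_, Nat.zero_le _, Nat.zero_le _, fun x => Nat.zero_le _⟩
  · refine ⟨[], [], [], [], [], [], [], [], Run.nil _, Run.nil _, hI p, hO p, hI q, hO q, ?_⟩
    intro θ θ' _ _
    refine ⟨[], ?_, hF, fun x => by simp⟩
    exact (Run.nil (θ ++ θ')).cast (by simp) (by simp)
  · exact ⟨[], [], [], [], [], [], [], Run.nil _, Run.nil _, hI p, hI q, hO p, hO q, hF,
      fun x => by simp⟩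

theorem inv_all (hS : S_STEP) (hb : S_HB) (E : ℕ → ℕ → Prop) (Δ : ℕ) (σ : ℕ → ℕ)
    (hσ : Function.Injective σ) (hE : ∀ i j, E i j → σ i < σ j) (hΔ : DegLe E Δ) {a b : ℕ}
    {H : Set ℕ} {F : Set (ℕ × ℕ)} {T : ℕ → ℕ} (h : Hang a b H F T) :
    (∀ v ∈ H, ∀ u, (E v u ∨ E u v) → (v, u) ∈ F) → (∀ v, T v ≤ Δ) →
    (σ a < σ b → Inv E Δ a b H T) ∧ (σ b < σ a → Inv E Δ b a H T) := by
  induction h with
  | nil a b hab H F T hH hF hT =>
    intro _ _
    exact ⟨fun _ => inv_empty _ _ _ _ _ _ hH, fun _ => inv_empty _ _ _ _ _ _ hH⟩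
  | cons a b w hab haw hwb H₁ H₂ H₃ H F₁ F₂ F₃ F T₁ T₂ T₃ T h₁ h₂ h₃ hb' ha hw h12 h13 h23 hH hF
      hT ih₁ ih₂ ih₃ =>
    intro hin hTΔ
    obtain ⟨a1, w1, f1, -, -⟩ := hb _ _ _ _ _ h₁
    obtain ⟨w2, b2, f2, -, -⟩ := hb _ _ _ _ _ h₂
    obtain ⟨a3, b3, f3, -, -⟩ := hb _ _ _ _ _ h₃
    have e1 : ∀ v ∈ H₁, ∀ u, (E v u ∨ E u v) → (v, u) ∈ F₁ := by
      intro v hv u hu
      have hvF := hin v ((hH v).2 (Or.inl hv)) u hu
      have va : v ≠ a := fun h => a1 (h ▸ hv)
      have vw : v ≠ w := fun h => w1 (h ▸ hv)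
      have vb : v ≠ b := fun h => hb' (h ▸ hv)
      rcases (hF _).1 hvF with h | h | h | h | h | h | h
      · exact h
      · rcases (f2 _ h).1 with h | h | h
        · exact absurd h (h12 v hv)
        · exact absurd h vw
        · exact absurd h vb
      · rcases (f3 _ h).1 with h | h | h
        · exact absurd h (h13 v hv)
        · exact absurd h va
        · exact absurd h vb
      · exact absurd (congrArg Prod.fst h) va
      · exact absurd (congrArg Prod.fst h) vw
      · exact absurd (congrArg Prod.fst h) vw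
      · exact absurd (congrArg Prod.fst h) vb
    have e2 : ∀ v ∈ H₂, ∀ u, (E v u ∨ E u v) → (v, u) ∈ F₂ := by
      intro v hv u hu
      have hvF := hin v ((hH v).2 (Or.inr (Or.inl hv))) u hu
      have va : v ≠ a := fun h => ha (h ▸ hv)
      have vw : v ≠ w := fun h => w2 (h ▸ hv)
      have vb : v ≠ b := fun h => b2 (h ▸ hv)
      rcases (hF _).1 hvF with h | h | h | h | h | h | h
      · rcases (f1 _ h).1 with h | h | h
        · exact absurd hv (h12 v h)
        · exact absurd h va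
        · exact absurd h vw
      · exact h
      · rcases (f3 _ h).1 with h | h | h
        · exact absurd h (h23 v hv)
        · exact absurd h va
        · exact absurd h vb
      · exact absurd (congrArg Prod.fst h) va
      · exact absurd (congrArg Prod.fst h) vw
      · exact absurd (congrArg Prod.fst h) vw
      · exact absurd (congrArg Prod.fst h) vb
    have e3 : ∀ v ∈ H₃, ∀ u, (E v u ∨ E u v) → (v, u) ∈ F₃ := by
      intro v hv u hu
      have hvF := hin v ((hH v).2 (Or.inr (Or.inr (Or.inl hv)))) u hu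
      have va : v ≠ a := fun h => a3 (h ▸ hv)
      have vw : v ≠ w := fun h => hw (h ▸ hv)
      have vb : v ≠ b := fun h => b3 (h ▸ hv)
      rcases (hF _).1 hvF with h | h | h | h | h | h | h
      · rcases (f1 _ h).1 with h | h | h
        · exact absurd hv (h13 v h)
        · exact absurd h va
        · exact absurd h vw
      · rcases (f2 _ h).1 with h | h | h
        · exact absurd hv (h23 v h)
        · exact absurd h vw
        · exact absurd h vb
      · exact h
      · exact absurd (congrArg Prod.fst h) va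
      · exact absurd (congrArg Prod.fst h) vw
      · exact absurd (congrArg Prod.fst h) vw
      · exact absurd (congrArg Prod.fst h) vb
    have nw : ∀ u, (E w u ∨ E u w) → u ∈ H₁ ∨ u ∈ H₂ ∨ u = a ∨ u = b := by
      intro u hu
      have hvF := hin w ((hH w).2 (Or.inr (Or.inr (Or.inr rfl)))) u hu
      rcases (hF _).1 hvF with h | h | h | h | h | h | h
      · obtain ⟨-, h4, -, -, h5⟩ := f1 _ h
        rcases h4 with h4 | h4 | h4
        · exact Or.inl h4
        · exact Or.inr (Or.inr (Or.inl h4))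
        · exact absurd h4.symm h5
      · obtain ⟨-, h4, -, -, h5⟩ := f2 _ h
        rcases h4 with h4 | h4 | h4
        · exact Or.inr (Or.inl h4)
        · exact absurd h4.symm h5
        · exact Or.inr (Or.inr (Or.inr h4))
      · rcases (f3 _ h).1 with h | h | h
        · exact absurd h hw
        · exact absurd h.symm haw
        · exact absurd h hwb
      · exact absurd (congrArg Prod.fst h).symm haw
      · exact Or.inr (Or.inr (Or.inl (congrArg Prod.snd h)))
      · exact Or.inr (Or.inr (Or.inr (congrArg Prod.snd h)))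
      · exact absurd (congrArg Prod.fst h) hwb
    have t1 : ∀ v, T₁ v ≤ Δ := fun v => by have := hT v; have := hTΔ v; omega
    have t2 : ∀ v, T₂ v ≤ Δ := fun v => by have := hT v; have := hTΔ v; omega
    have t3 : ∀ v, T₃ v ≤ Δ := fun v => by have := hT v; have := hTΔ v; omega
    have i1 := ih₁ e1 t1
    have i2 := ih₂ e2 t2
    have i3 := ih₃ e3 t3
    have swa : σ w ≠ σ a := fun h => haw (hσ h).symm
    have swb : σ w ≠ σ b := fun h => hwb (hσ h)
    constructor
    · intro hab'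
      exact hS E Δ a b w H₁ H₂ H₃ H T₁ T₂ T₃ T σ hE hΔ hab' swa swb hT hTΔ hH hb' ha hw h12 h13
        h23 nw i1.1 i1.2 i2.1 i2.2 (i3.1 hab')
    · intro hab'
      refine hS E Δ b a w H₂ H₁ H₃ H T₂ T₁ T₃ T σ hE hΔ hab' swb swa ?_ hTΔ ?_ ha hb' hw ?_ h23
        h13 ?_ i2.2 i2.1 i1.2 i1.1 (i3.2 hab')
      · intro v
        rw [hT v, ind3_comm]
        omega
      · intro v
        rw [hH v]
        exact or_left_comm
      · intro v h2 h1
        exact h12 v h1 h2
      · intro u hu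
        rcases nw u hu with h | h | h | h
        · exact Or.inr (Or.inl h)
        · exact Or.inl h
        · exact Or.inr (Or.inr (Or.inr h))
        · exact Or.inr (Or.inr (Or.inl h))

/-- the edge between `v` and `u`, directed as in `E` -/
noncomputable def ed (E : ℕ → ℕ → Prop) (v u : ℕ) : ℕ × ℕ :=
  open Classical in if E v u then (v, u) else (u, v)

theorem ed_inj {E : ℕ → ℕ → Prop} {v x y : ℕ} (hx : x ≠ v) (hy : y ≠ v)
    (h : ed E v x = ed E v y) : x = y := by
  unfold ed at h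
  split_ifs at h with h1 h2 h2
  · exact congrArg Prod.snd h
  · exact absurd (congrArg Prod.fst h).symm hy
  · exact absurd (congrArg Prod.fst h) hx
  · exact congrArg Prod.fst h

theorem ed_spec {E : ℕ → ℕ → Prop} {v u : ℕ} (h : E v u ∨ E u v) :
    ((ed E v u).1 = v ∨ (ed E v u).2 = v) ∧ E (ed E v u).1 (ed E v u).2 := by
  unfold ed
  split_ifs with h2
  · exact ⟨Or.inl rfl, h2⟩
  · exact ⟨Or.inr rfl, h.resolve_left h2⟩

theorem deg_list {E : ℕ → ℕ → Prop} {Δ : ℕ} (hΔ : DegLe E Δ) (v : ℕ) (L : List ℕ) (hL : L.Nodup)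
    (hne : ∀ u ∈ L, u ≠ v) (h : ∀ u ∈ L, E v u ∨ E u v) : L.length ≤ Δ := by
  have h1 : (L.map (ed E v)).Nodup :=
    (List.nodup_map_iff_inj_on hL).2 fun x hx y hy hxy => ed_inj (hne x hx) (hne y hy) hxy
  have h2 : ∀ e ∈ L.map (ed E v), (e.1 = v ∨ e.2 = v) ∧ E e.1 e.2 := by
    intro e he
    obtain ⟨u, hu, rfl⟩ := List.mem_map.1 he
    exact ed_spec (h u hu)
  have h3 := hΔ v (L.map (ed E v)) h1 h2
  rw [List.length_map] at h3
  exact h3

theorem main (hS : S_STEP) (hR : S_ROOT) (hB : S_BUILD) (hb : S_HB) : S_IND2 := by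
  classical
  intro Δ n E σ hσ hE hT hΔ
  have hE' : ∀ i j, E i j → σ i < σ j := fun i j h => (hE i j h).2.2
  obtain ⟨F, T, hH, hadj⟩ := hB n E (fun i j h => ⟨(hE i j h).1, (hE i j h).2.1, fun e => by
    have := hE' i j h
    rw [e] at this
    omega⟩) hT
  obtain ⟨z0, z1, hF, -, hL⟩ := hb _ _ _ _ _ hH
  have hTΔ : ∀ v, T v ≤ Δ := by
    intro v
    obtain ⟨L, hL1, hL2, hL3⟩ := hL v
    refine hL3.trans ?_
    have hne : ∀ u ∈ L, u ≠ v := fun u hu h => (hF _ (hL2 u hu)).2.2.2.2 h.symm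
    exact deg_list hΔ v L hL1 hne fun u hu => (hadj v u).2 (Or.inl (hL2 u hu))
  have hinF : ∀ v ∈ {v | 2 ≤ v ∧ v < n}, ∀ u, (E v u ∨ E u v) → (v, u) ∈ F := by
    intro v hv u hu
    rcases (hadj v u).1 hu with h | h | h
    · exact h
    · have := hv.1; omega
    · have := hv.1; omega
  have hinv := inv_all hS hb E Δ σ hσ hE' hΔ hH hinF hTΔ
  have n01 : ∀ u, (E 0 u ∨ E u 0) → (2 ≤ u ∧ u < n) ∨ u = 1 := by
    intro u hu
    rcases (hadj 0 u).1 hu with h | h | h
    · obtain ⟨-, h1, -, -, h2⟩ := hF _ h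
      rcases h1 with h1 | h1 | h1
      · exact Or.inl h1
      · exact absurd h1.symm h2
      · exact Or.inr h1
    · exact Or.inr h.2
    · omega
  have n10 : ∀ u, (E 1 u ∨ E u 1) → (2 ≤ u ∧ u < n) ∨ u = 0 := by
    intro u hu
    rcases (hadj 1 u).1 hu with h | h | h
    · obtain ⟨-, h1, -, -, h2⟩ := hF _ h
      rcases h1 with h1 | h1 | h1
      · exact Or.inl h1
      · exact Or.inr h1
      · exact absurd h1.symm h2
    · omega
    · exact Or.inr h.2
  have fin : ∀ p q, p ≠ q → (p = 0 ∨ p = 1) → (q = 0 ∨ q = 1) → σ p < σ q →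
      Inv E Δ p q {v | 2 ≤ v ∧ v < n} T →
      (∀ u, (E p u ∨ E u p) → (2 ≤ u ∧ u < n) ∨ u = q) →
      (∀ u, (E q u ∨ E u q) → (2 ≤ u ∧ u < n) ∨ u = p) →
      ∃ es, Run [] es [] ∧ (∀ ev ∈ es, OKE E ev) ∧ (vs es).Nodup ∧ (∀ v, v ∈ vs es ↔ v < n) ∧
        ∀ e, cr e es ≤ 400 * Δ ^ 3 + 300 * Δ ^ 2 + 20 * Δ := by
    intro p q hpq hp hq hlt hI np nq
    obtain ⟨HM, HB, X, X', κM, κB, c1, c2, c3, c4, c5, c6, c7, c8, c9⟩ := hI
    have irr : ∀ v, ¬ E v v := fun v h => lt_irrefl _ (hE' v v h)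
    obtain ⟨es, d1, d2, d3⟩ := hR E Δ p q HM HB X X' κM κB hΔ hpq c3 c4 c2 (irr p) (irr q)
      (fun h => by have := hE' q p h; omega)
      (fun u hu => by
        rcases np u hu with h | h
        · rcases (c1 u).1 h with h | h
          · exact Or.inl h
          · exact Or.inr (Or.inl h)
        · exact Or.inr (Or.inr h))
      (fun u hu => by
        rcases nq u hu with h | h
        · rcases (c1 u).1 h with h | h
          · exact Or.inl h
          · exact Or.inr (Or.inl h)
        · exact Or.inr (Or.inr h)) c5 c6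
    refine ⟨es, d1, d2.1, d2.2.1, fun v => ?_, fun x => ?_⟩
    · rw [d2.2.2 v, mem_ofPred_eq]
      have hn := hT.1
      have := c1 v
      rw [mem_ofPred_eq] at this
      constructor
      · rintro (h | h | h | h)
        · exact (this.2 (Or.inl h)).2
        · exact (this.2 (Or.inr h)).2
        · omega
        · omega
      · intro hv
        by_cases h2 : 2 ≤ v
        · rcases this.1 ⟨h2, hv⟩ with h | h
          · exact Or.inl h
          · exact Or.inr (Or.inl h)
        · have : v = p ∨ v = q := by omega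
          rcases this with h | h
          · exact Or.inr (Or.inr (Or.inl h))
          · exact Or.inr (Or.inr (Or.inr h))
    · refine (d3 x).trans ?_
      have h1 : κM x + κB x ≤ (102 * Δ + 200 * Δ ^ 2) * (2 * Δ) :=
        (c9 x).trans (Nat.mul_le_mul_left _ (by have := hTΔ x.1; have := hTΔ x.2; omega))
      have h2 : X ≤ 4 * Δ * Δ := c7.trans (Nat.mul_le_mul_left _ (hTΔ p))
      have h3 : X' ≤ 4 * Δ * Δ := c8.trans (Nat.mul_le_mul_left _ (hTΔ q))
      have h4 : (102 * Δ + 200 * Δ ^ 2) * (2 * Δ) = 204 * Δ ^ 2 + 400 * Δ ^ 3 := by ring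
      have h5 : 4 * Δ * Δ = 4 * Δ ^ 2 := by ring
      rw [h4] at h1
      rw [h5] at h2 h3
      omega
  rcases lt_trichotomy (σ 0) (σ 1) with h | h | h
  · exact fin 0 1 (by omega) (Or.inl rfl) (Or.inr rfl) h (hinv.1 h) n01 n10
  · exact absurd (hσ h) (by omega)
  · exact fin 1 0 (by omega) (Or.inr rfl) (Or.inl rfl) h (hinv.2 h) n10 n01

end Pool.Agent.Helper11.UL2.IND2
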